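import Pool.Agent.KS6_78.DG.K

set_option autoImplicit false

namespace Pool.Agent.Results.MP_773b78_co.ExactMaximum

open Pool.Agent.Results.MP_773b78_co.ManyMixed Pool.Agent.KS6_78.DG

/-- **The maximal number of mixed diagonals.** Let `n ≥ 4`. The maximal number of mixed
diagonals of a simple `n`-gon without straight angles is `⌊(n - 3)² / 2⌋`; the maximum is the same
for the polygons without three collinear vertices. If straight angles are allowed the maximum is
`(n - 2) (n - 3) / 2`. -/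
theorem result : ∀ n : ℕ, 4 ≤ n →
    IsGreatest {m : ℕ | ∃ v : ℕ → ℝ × ℝ, IsSimple n v ∧ NoStraight n v ∧ numMixed n v = m}
      ((n - 3) ^ 2 / 2) ∧
    IsGreatest {m : ℕ | ∃ v : ℕ → ℝ × ℝ, IsSimple n v ∧ GenPos n v ∧ numMixed n v = m}
      ((n - 3) ^ 2 / 2) ∧
    IsGreatest {m : ℕ | ∃ v : ℕ → ℝ × ℝ, IsSimple n v ∧ numMixed n v = m}
      ((n - 2) * (n - 3) / 2) := by
  intro n hn
  obtain ⟨u, u1, u2, u3⟩ : ∃ v : ℕ → ℝ × ℝ, IsSimple n v ∧ GenPos n v ∧
      (n - 3) ^ 2 / 2 ≤ numMixed n v := by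
    obtain ⟨k, rfl⟩ := Nat.exists_eq_add_of_le hn
    have h1 := g_isSimple (m := k + 2) (by omega)
    have h2 := G_genPos (k + 2)
    have h3 := gcount k
    rw [show 4 + k = k + 4 by ring, show k + 4 - 3 = k + 1 by omega]
    exact ⟨G (k + 2), h1, h2, h3⟩
  obtain ⟨-, w, w1, w2⟩ := ManyMixed.result n hn
  refine ⟨⟨⟨u, u1, u2.noStraight (by omega), le_antisymm ?_ u3⟩, ?_⟩,
    ⟨⟨u, u1, u2, le_antisymm ?_ u3⟩, ?_⟩, ⟨w, w1, le_antisymm ?_ w2⟩, ?_⟩
  · have := (bounds (by omega) u1).2 (u2.noStraight (by omega))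
    omega
  · rintro m ⟨v, v1, v2, rfl⟩
    have := (bounds (by omega) v1).2 v2
    omega
  · have := (bounds (by omega) u1).2 (u2.noStraight (by omega))
    omega
  · rintro m ⟨v, v1, v2, rfl⟩
    have := (bounds (by omega) v1).2 (v2.noStraight (by omega))
    omega
  · have := (bounds (by omega) w1).1
    omega
  · rintro m ⟨v, v1, rfl⟩
    have := (bounds (by omega) v1).1
    omega

end Pool.Agent.Results.MP_773b78_co.ExactMaximum
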